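import Pool.Agent.helper91.SW.Poly

/-!
# The hyperscaling relation for self-avoiding polygons in high dimensions
-/

set_option autoImplicit false

open Filter Topology
open Pool.Agent.helper91.SW

namespace Pool.Agent.Results.MP_c0584e_pr.HyperscalingHighDim

/-- neighbours in `ℤ^d`: points at Euclidean distance one -/
def Adj {d : ℕ} (x y : Fin d → ℤ) : Prop := ∑ i, (y i - x i) ^ 2 = 1

/-- the self-avoiding walks of length `n` from the origin -/
def Walk (d n : ℕ) : Set (Fin (n + 1) → Fin d → ℤ) :=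
  {w | w 0 = 0 ∧ (∀ i : Fin n, Adj (w i.castSucc) (w i.succ)) ∧ Function.Injective w}

/-- the self-avoiding polygons of length `n`, as rooted and oriented closed paths -/
def Polygon (d n : ℕ) : Set (Fin (n + 1) → Fin d → ℤ) :=
  {w | w 0 = 0 ∧ w (Fin.last n) = 0 ∧ (∀ i : Fin n, Adj (w i.castSucc) (w i.succ)) ∧
    ∀ i j : Fin n, i < j → w i.castSucc ≠ w j.castSucc}

/-- the number of self-avoiding walks -/
noncomputable def numWalks (d n : ℕ) : ℕ := (Walk d n).ncard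

/-- the number of self-avoiding polygons -/
noncomputable def numPolygons (d n : ℕ) : ℕ := (Polygon d n).ncard

/-- the mean square displacement of the self-avoiding walks of length `n` -/
noncomputable def meanSq (d n : ℕ) : ℝ :=
  (∑ᶠ w ∈ Walk d n, ∑ i, ((w (Fin.last n) i : ℤ) : ℝ) ^ 2) / numWalks d n

/-- `μ` is the connective constant -/
def IsConnective (d : ℕ) (μ : ℝ) : Prop :=
  Tendsto (fun n : ℕ => (numWalks d n : ℝ) ^ (1 / (n : ℝ))) atTop (𝓝 μ)

/-- the exponent `α_d` exists and equals `a` -/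
def IsAlpha (d : ℕ) (a : ℝ) : Prop :=
  ∃ μ : ℝ, IsConnective d μ ∧
    Tendsto (fun m : ℕ => Real.log ((μ ^ (2 * m))⁻¹ * numPolygons d (2 * m)) /
      Real.log ((2 * m : ℕ) : ℝ)) atTop (𝓝 (a - 2))

/-- the exponent `ν_d` exists and equals `v` -/
def IsNu (d : ℕ) (v : ℝ) : Prop :=
  Tendsto (fun n : ℕ => Real.log (meanSq d n) / Real.log (n : ℝ)) atTop (𝓝 (2 * v))

/-! ## walks and lists of steps -/

variable {d : ℕ}

theorem adj_nb (x : Fin d → ℤ) (s : St d) : Adj x (x + nb s) := by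
  unfold Adj
  obtain ⟨j, b⟩ := s
  have h : ∀ i, ((x + nb (j, b)) i - x i) ^ 2 = if i = j then 1 else 0 := by
    intro i
    rw [Pi.add_apply, add_sub_cancel_left]
    by_cases hij : i = j
    · subst hij
      cases b <;> simp [nb, Pool.Agent.helper55.FP.LCt_nb]
    · cases b <;> simp [nb, Pool.Agent.helper55.FP.LCt_nb, hij]
  rw [Finset.sum_congr rfl fun i _ => h i]
  simp

theorem adj_exists {x y : Fin d → ℤ} (h : Adj x y) : ∃ s : St d, y = x + nb s := by
  unfold Adj at h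
  have hex : ∃ j, y j - x j ≠ 0 := by
    by_contra hcon
    push Not at hcon
    simp [hcon] at h
  obtain ⟨j, hj⟩ := hex
  have h1 : (y j - x j) ^ 2 + ∑ i ∈ Finset.univ.erase j, (y i - x i) ^ 2 = 1 := by
    rw [← h]
    exact Finset.add_sum_erase Finset.univ (fun i => (y i - x i) ^ 2) (Finset.mem_univ j)
  have h2 : 0 ≤ ∑ i ∈ Finset.univ.erase j, (y i - x i) ^ 2 :=
    Finset.sum_nonneg fun i _ => sq_nonneg _
  have h3 : 1 ≤ (y j - x j) ^ 2 := by
    have : 0 < (y j - x j) ^ 2 := by positivity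
    omega
  have h4 : (y j - x j) ^ 2 = 1 := by omega
  have h5 : ∑ i ∈ Finset.univ.erase j, (y i - x i) ^ 2 = 0 := by omega
  rw [Finset.sum_eq_zero_iff_of_nonneg fun i _ => sq_nonneg _] at h5
  have h6 : ∀ i, i ≠ j → y i = x i := by
    intro i hi
    have := h5 i (Finset.mem_erase.2 ⟨hi, Finset.mem_univ _⟩)
    have := pow_eq_zero_iff (two_ne_zero) |>.1 this
    omega
  rw [sq, mul_self_eq_one_iff] at h4
  rcases h4 with h7 | h7
  · refine ⟨(j, true), ?_⟩
    funext i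
    by_cases hi : i = j
    · subst hi
      simp [nb, Pool.Agent.helper55.FP.LCt_nb]
      omega
    · rw [h6 i hi]
      simp [nb, Pool.Agent.helper55.FP.LCt_nb, hi]
  · refine ⟨(j, false), ?_⟩
    funext i
    by_cases hi : i = j
    · subst hi
      simp [nb, Pool.Agent.helper55.FP.LCt_nb]
      omega
    · rw [h6 i hi]
      simp [nb, Pool.Agent.helper55.FP.LCt_nb, hi]

/-- the path of a list of steps -/
noncomputable def path (n : ℕ) (l : List (St d)) : Fin (n + 1) → Fin d → ℤ :=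
  fun i => Pw l i

theorem path_inj {n : ℕ} {l l' : List (St d)} (hl : l.length = n) (hl' : l'.length = n)
    (h : path n l = path n l') : l = l' := by
  apply List.ext_getElem (by rw [hl, hl'])
  intro i h1 h2
  have e1 := Pw_succ l i h1
  have e2 := Pw_succ l' i h2
  have e3 : Pw l i = Pw l' i := congrFun h ⟨i, by omega⟩
  have e4 : Pw l (i + 1) = Pw l' (i + 1) := congrFun h ⟨i + 1, by omega⟩
  rw [e3] at e1
  rw [e1, e2] at e4
  exact Pool.Agent.helper55.FP.LCt_nb_inj (add_left_cancel e4)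

theorem path_surj {n : ℕ} {w : Fin (n + 1) → Fin d → ℤ} (h0 : w 0 = 0)
    (h : ∀ i : Fin n, Adj (w i.castSucc) (w i.succ)) :
    ∃ l : List (St d), l.length = n ∧ path n l = w := by
  choose s hs using fun i => adj_exists (h i)
  refine ⟨List.ofFn s, List.length_ofFn, ?_⟩
  have key : ∀ k (hk : k < n + 1), Pw (List.ofFn s) k = w ⟨k, hk⟩ := by
    intro k
    induction k with
    | zero =>
      intro hk
      rw [Pw_zero]
      exact h0.symm
    | succ k ih =>
      intro hk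
      have hk' : k < (List.ofFn s).length := by
        rw [List.length_ofFn]
        omega
      rw [Pw_succ _ k hk', ih (by omega), List.getElem_ofFn]
      have h1 := hs ⟨k, by omega⟩
      exact h1.symm
  funext i
  exact key i i.2

theorem path_adj {n : ℕ} {l : List (St d)} (hl : l.length = n) (i : Fin n) :
    Adj (path n l i.castSucc) (path n l i.succ) := by
  have h : path n l i.succ = path n l i.castSucc + nb (l[(i : ℕ)]'(by omega)) := by
    change Pw l ((i : ℕ) + 1) = Pw l (i : ℕ) + _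
    exact Pw_succ l i (by omega)
  rw [h]
  exact adj_nb _ _

theorem Walk_eq (n : ℕ) : Walk d n = path n '' (SAW d n : Set (List (St d))) := by
  ext w
  rw [Set.mem_image]
  constructor
  · rintro ⟨h0, h1, h2⟩
    obtain ⟨l, hl, rfl⟩ := path_surj h0 h1
    refine ⟨l, ?_, rfl⟩
    rw [Finset.mem_coe, mem_SAW]
    refine ⟨hl, fun i j hij hj h => ?_⟩
    have h3 := h2 (a₁ := ⟨i, by omega⟩) (a₂ := ⟨j, by omega⟩) h
    rw [Fin.mk.injEq] at h3
    omega
  · rintro ⟨l, hl, rfl⟩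
    rw [Finset.mem_coe, mem_SAW] at hl
    refine ⟨Pw_zero l, fun i => path_adj hl.1 i, fun i j h => ?_⟩
    by_contra hne
    have hne' : (i : ℕ) ≠ j := fun h => hne (Fin.ext h)
    rcases Nat.lt_or_gt_of_ne hne' with h1 | h1
    · exact hl.2 i j h1 (by omega) h
    · exact hl.2 j i h1 (by omega) h.symm

theorem Polygon_eq (n : ℕ) : Polygon d n = path n '' (PG d n : Set (List (St d))) := by
  ext w
  rw [Set.mem_image]
  constructor
  · rintro ⟨h0, hend, h1, h2⟩
    obtain ⟨l, hl, rfl⟩ := path_surj h0 h1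
    refine ⟨l, ?_, rfl⟩
    rw [Finset.mem_coe, mem_PG]
    refine ⟨hl, ?_, fun i j hij hj => ?_⟩
    · rw [← Pw_length, hl]
      exact hend
    · exact h2 ⟨i, by omega⟩ ⟨j, by omega⟩ hij
  · rintro ⟨l, hl, rfl⟩
    rw [Finset.mem_coe, mem_PG] at hl
    obtain ⟨hl, hp, hne⟩ := hl
    refine ⟨Pw_zero l, ?_, fun i => path_adj hl i, fun i j hij => ?_⟩
    · change Pw l n = 0
      rw [← hl, Pw_length, hp]
    · exact hne i j hij (by omega)

theorem path_injOn_SAW (n : ℕ) : Set.InjOn (path n) (SAW d n : Set (List (St d))) :=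
  fun _ hl _ hl' h => path_inj (mem_SAW.1 (Finset.mem_coe.1 hl)).1
    (mem_SAW.1 (Finset.mem_coe.1 hl')).1 h

theorem path_injOn_PG (n : ℕ) : Set.InjOn (path n) (PG d n : Set (List (St d))) :=
  fun _ hl _ hl' h => path_inj (mem_PG.1 (Finset.mem_coe.1 hl)).1
    (mem_PG.1 (Finset.mem_coe.1 hl')).1 h

theorem numWalks_eq (n : ℕ) : (numWalks d n : ℝ) = Cn d n := by
  unfold numWalks
  rw [Walk_eq, (path_injOn_SAW n).ncard_image, Set.ncard_coe_finset, Cn_eq_card]

theorem numPolygons_eq (n : ℕ) : numPolygons d n = (PG d n).card := by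
  unfold numPolygons
  rw [Polygon_eq, (path_injOn_PG n).ncard_image, Set.ncard_coe_finset]

theorem meanSq_eq (n : ℕ) : meanSq d n = M2 d n / Cn d n := by
  unfold meanSq
  rw [numWalks_eq, Walk_eq, finsum_mem_image (path_injOn_SAW n), finsum_mem_coe_finset, M2_eq_sum]
  congr 1
  refine Finset.sum_congr rfl fun l hl => ?_
  have h1 := (mem_SAW.1 hl).1
  have h2 : path n l (Fin.last n) = pos l := by
    change Pw l n = pos l
    rw [← h1, Pw_length]
  rw [h2]
  rfl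

/-! ## limits -/

theorem log_lim {f x : ℕ → ℝ} {a κ K : ℝ} (hκ : 0 < κ) (hK : 0 < K)
    (hx : Tendsto x atTop atTop)
    (h : ∀ᶠ m in atTop, κ * x m ^ a ≤ f m ∧ f m ≤ K * x m ^ a) :
    Tendsto (fun m => Real.log (f m) / Real.log (x m)) atTop (𝓝 a) := by
  have hlog : Tendsto (fun m => Real.log (x m)) atTop atTop := Real.tendsto_log_atTop.comp hx
  have hl : ∀ b : ℝ, Tendsto (fun m => b / Real.log (x m) + a) atTop (𝓝 a) := by
    intro b
    have h1 : Tendsto (fun m => b / Real.log (x m)) atTop (𝓝 0) :=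
      tendsto_const_nhds.div_atTop hlog
    have h2 := h1.add_const a
    rwa [zero_add] at h2
  have hev : ∀ᶠ m in atTop, 1 < x m := hx.eventually_gt_atTop 1
  refine tendsto_of_tendsto_of_tendsto_of_le_of_le' (hl (Real.log κ)) (hl (Real.log K)) ?_ ?_
  · filter_upwards [h, hev] with m hm hx1
    have hx0 : 0 < x m := by linarith
    have hL : 0 < Real.log (x m) := Real.log_pos hx1
    have hp : 0 < x m ^ a := Real.rpow_pos_of_pos hx0 a
    have h1 : Real.log (κ * x m ^ a) ≤ Real.log (f m) :=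
      Real.log_le_log (mul_pos hκ hp) hm.1
    rw [Real.log_mul hκ.ne' hp.ne', Real.log_rpow hx0] at h1
    rw [div_add' _ _ _ hL.ne']
    exact div_le_div_of_nonneg_right h1 hL.le
  · filter_upwards [h, hev] with m hm hx1
    have hx0 : 0 < x m := by linarith
    have hL : 0 < Real.log (x m) := Real.log_pos hx1
    have hp : 0 < x m ^ a := Real.rpow_pos_of_pos hx0 a
    have hf : 0 < f m := lt_of_lt_of_le (mul_pos hκ hp) hm.1
    have h1 : Real.log (f m) ≤ Real.log (K * x m ^ a) := Real.log_le_log hf hm.2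
    rw [Real.log_mul hK.ne' hp.ne', Real.log_rpow hx0] at h1
    rw [div_add' _ _ _ hL.ne']
    exact div_le_div_of_nonneg_right h1 hL.le

/-- In all dimensions `d ≥ d₀` the number of polygons and the mean square displacement are bounded
above and below by constant multiples of `μ ^ n * n ^ (-d/2)` and `n`; so the exponents exist and
satisfy the hyperscaling relation -/
theorem result : ∃ d₀ : ℕ, ∀ d ≥ d₀,
    (∃ μ κ K : ℝ, IsConnective d μ ∧ 0 < κ ∧
      (∀ᶠ m : ℕ in atTop,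
        κ * ((2 * m : ℕ) : ℝ) ^ (-(d : ℝ) / 2) ≤ (μ ^ (2 * m))⁻¹ * numPolygons d (2 * m) ∧
        (μ ^ (2 * m))⁻¹ * numPolygons d (2 * m) ≤ K * ((2 * m : ℕ) : ℝ) ^ (-(d : ℝ) / 2)) ∧
      (∀ᶠ n : ℕ in atTop, κ * n ≤ meanSq d n ∧ meanSq d n ≤ K * n)) ∧
    ∃ α ν : ℝ, IsAlpha d α ∧ IsNu d ν ∧ α - 2 = -(d * ν) ∧ ν = 1 / 2 := by
  obtain ⟨d₀, h32, hcrit⟩ := exists_crit (η := 1 / 12) (by norm_num)
  refine ⟨d₀, fun d hd => ?_⟩
  have h := hcrit d hd
  have hd1 : 1 ≤ d := by omega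
  have hd10 : 10 ≤ d := by omega
  have hz := zc_pos d
  have hconn : IsConnective d (mu d) := by
    unfold IsConnective
    simp only [numWalks_eq]
    exact tendsto_Cn_rpow hd1
  have hx : Tendsto (fun m : ℕ => ((2 * m : ℕ) : ℝ)) atTop atTop := by
    apply tendsto_natCast_atTop_atTop.comp
    exact Filter.tendsto_id.const_mul_atTop' (by norm_num : 0 < 2)
  have h2 : (0 : ℝ) < 2 ^ ((d : ℝ) / 2) := by positivity
  -- polygons
  have hpoly : ∃ κ K : ℝ, 0 < κ ∧ 0 < K ∧ ∀ᶠ m : ℕ in atTop,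
      κ * ((2 * m : ℕ) : ℝ) ^ (-(d : ℝ) / 2) ≤ (mu d ^ (2 * m))⁻¹ * numPolygons d (2 * m) ∧
      (mu d ^ (2 * m))⁻¹ * numPolygons d (2 * m) ≤ K * ((2 * m : ℕ) : ℝ) ^ (-(d : ℝ) / 2) := by
    obtain ⟨κ, hκ, m₀, hlow⟩ := h.polygon_lower le_rfl hd10
    obtain ⟨K, hK, hup⟩ := h.polygon_upper le_rfl
    refine ⟨κ * 2 ^ ((d : ℝ) / 2), K * 2 ^ ((d : ℝ) / 2), mul_pos hκ h2, mul_pos hK h2, ?_⟩
    filter_upwards [eventually_ge_atTop (max m₀ 1)] with m hm
    have hm1 : 1 ≤ m := le_trans (le_max_right _ _) hm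
    have hm0 : (0 : ℝ) < m := by exact_mod_cast hm1
    have e1 : ((2 * m : ℕ) : ℝ) ^ (-(d : ℝ) / 2) =
        (2 : ℝ) ^ (-(d : ℝ) / 2) * (m : ℝ) ^ (-(d : ℝ) / 2) := by
      push_cast
      exact Real.mul_rpow (by norm_num) hm0.le
    have e2 : (2 : ℝ) ^ ((d : ℝ) / 2) * (2 : ℝ) ^ (-(d : ℝ) / 2) = 1 := by
      rw [← Real.rpow_add (by norm_num), show (d : ℝ) / 2 + -(d : ℝ) / 2 = 0 by ring,
        Real.rpow_zero]
    have e3 : ∀ b : ℝ, b * 2 ^ ((d : ℝ) / 2) * ((2 * m : ℕ) : ℝ) ^ (-(d : ℝ) / 2) =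
        b * (m : ℝ) ^ (-(d : ℝ) / 2) := by
      intro b
      rw [e1]
      calc b * 2 ^ ((d : ℝ) / 2) * ((2 : ℝ) ^ (-(d : ℝ) / 2) * (m : ℝ) ^ (-(d : ℝ) / 2))
          = b * ((2 : ℝ) ^ ((d : ℝ) / 2) * (2 : ℝ) ^ (-(d : ℝ) / 2)) *
            (m : ℝ) ^ (-(d : ℝ) / 2) := by ring
        _ = b * (m : ℝ) ^ (-(d : ℝ) / 2) := by rw [e2, mul_one]
    have e4 : ((mu d ^ (2 * m))⁻¹ * (numPolygons d (2 * m) : ℝ)) =
        (PG d (2 * m)).card * zc d ^ (2 * m) := by
      rw [numPolygons_eq, mul_comm, zc, inv_pow]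
    rw [e3, e3, e4]
    exact ⟨hlow m (le_trans (le_max_left _ _) hm), hup m hm1⟩
  -- mean square displacement
  have hmsd : ∃ κ : ℝ, 0 < κ ∧ ∀ᶠ n : ℕ in atTop, κ * n ≤ meanSq d n ∧ meanSq d n ≤ 40 * n := by
    obtain ⟨κ, hκ, n₀, hn⟩ := h.msd le_rfl
    refine ⟨κ, hκ, ?_⟩
    filter_upwards [eventually_ge_atTop n₀] with n hn'
    rw [meanSq_eq]
    exact hn n hn'
  obtain ⟨κ₁, K₁, hκ₁, hK₁, hp⟩ := hpoly
  obtain ⟨κ₂, hκ₂, hq⟩ := hmsd
  refine ⟨⟨mu d, min κ₁ κ₂, max K₁ 40, hconn, lt_min hκ₁ hκ₂, ?_, ?_⟩,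
    2 - d / 2, 1 / 2, ⟨mu d, hconn, ?_⟩, ?_, by ring, rfl⟩
  · filter_upwards [hp] with m hm
    have hnn : 0 ≤ ((2 * m : ℕ) : ℝ) ^ (-(d : ℝ) / 2) := Real.rpow_nonneg (Nat.cast_nonneg _) _
    exact ⟨le_trans (mul_le_mul_of_nonneg_right (min_le_left _ _) hnn) hm.1,
      le_trans hm.2 (mul_le_mul_of_nonneg_right (le_max_left _ _) hnn)⟩
  · filter_upwards [hq] with n hn
    have hnn : (0 : ℝ) ≤ n := Nat.cast_nonneg _
    exact ⟨le_trans (mul_le_mul_of_nonneg_right (min_le_right _ _) hnn) hn.1,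
      le_trans hn.2 (mul_le_mul_of_nonneg_right (le_max_right _ _) hnn)⟩
  · rw [show (2 - (d : ℝ) / 2) - 2 = -(d : ℝ) / 2 by ring]
    exact log_lim hκ₁ hK₁ hx hp
  · unfold IsNu
    rw [show (2 : ℝ) * (1 / 2) = 1 by norm_num]
    apply log_lim (K := 40) hκ₂ (by norm_num) tendsto_natCast_atTop_atTop
    filter_upwards [hq] with n hn
    rw [Real.rpow_one]
    exact hn

end Pool.Agent.Results.MP_c0584e_pr.HyperscalingHighDim
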